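import Pool.Agent.Lib_MP_008adc_oct.OFin

/-!
# Exact values of the maximal determinant

With `maxDet n` the maximal absolute value of the determinant of an `n × n` matrix with entries
`1, -1`, and with the tower function `tow 0 = 1`, `tow (j + 1) = 2 ^ tow j`, there is a constant
`C` such that `maxDet n = n ^ (n / 2)` for all `n = 2 ^ t q` with `0 < q < tow j` and `t ≥ C ^ j`
(so `C ^ (log* q)` is enough); in particular, for every `k`, for all large `q` and all
`t ≥ log^[k] q`, the `k` times iterated logarithm.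
-/

set_option autoImplicit false

namespace Pool.Agent.Results.MP_008adc_co.ExactValues

theorem result : (∃ C : ℕ, 1 ≤ C ∧ ∀ j q t : ℕ, 0 < q → q < HadCalc.tow j → C ^ j ≤ t →
      HadCalc.maxDet (2 ^ t * q) = ((2 ^ t * q : ℕ) : ℝ) ^ (((2 ^ t * q : ℕ) : ℝ) / 2)) ∧
    ∀ k : ℕ, ∃ q₀ : ℕ, ∀ q t : ℕ, q₀ ≤ q → Real.log^[k] q ≤ t →
      HadCalc.maxDet (2 ^ t * q) = ((2 ^ t * q : ℕ) : ℝ) ^ (((2 ^ t * q : ℕ) : ℝ) / 2) := by
  refine ⟨HadCalc.maxDet_star, fun k => ?_⟩
  obtain ⟨q₀, h⟩ := HadCalc.hadOrder_iter k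
  exact ⟨q₀ + 1, fun q t hq ht => HadCalc.maxDet_eq
    (Nat.mul_pos (Nat.two_pow_pos t) (by omega)) (h q t (by omega) ht)⟩

end Pool.Agent.Results.MP_008adc_co.ExactValues
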