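import Pool.Agent.Lib_MP_008adc_li.Block
import Pool.Agent.Lib_MP_008adc_li.Tensor
import Pool.Agent.Lib_MP_008adc_li.LMain

/-!
# The normalised maximal determinant on long intervals

With `maxDet n` the maximal absolute value of the determinant of an `n × n` matrix with entries
`1, -1` and `rDet n = maxDet n / n ^ (n / 2)`:

* if there is a Hadamard matrix of order `h ≥ 1` (for instance `h = 1`), then
  `rDet (4 h (2 ^ s + u)) ≥ exp (-3 h (2 ^ s + u) u ^ 2 / 4 ^ s)` for all `s, u`; so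
  `rDet n → 1` along these `n` if `h u ^ 2 / 2 ^ s → 0`;
* there is `C ≥ 1` such that `rDet n ≥ 5 ^ (-K ^ 2 2 ^ (C B))` for all `B` and `K ≥ 1`, every sum `N`
  of at most `B` powers of two and every `n > 0` with `N ≤ n` and `(n - N) ^ 2 ≤ K N`;
* if moreover all the powers of two are multiples of `2 ^ (3 B + 13)` and `d` is a multiple of
  `2 ^ (3 B + 12)`, then `rDet (N + d) ≥ exp (-(3 / 4) (N + d) d ^ 2 / N ^ 2)`.
-/

set_option autoImplicit false

namespace Pool.Agent.Results.MP_008adc_co.LongIntervals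

theorem result : (∀ h s u : ℕ, 0 < h → HadCalc.HadOrder h →
      Real.exp (-(3 * (h : ℝ) * ((2 : ℝ) ^ s + u) * (u : ℝ) ^ 2 / (4 : ℝ) ^ s)) ≤
        HadCalc.rDet (4 * h * (2 ^ s + u))) ∧
    (∃ C : ℕ, 1 ≤ C ∧ ∀ (B K : ℕ) (l : List ℕ) (N n : ℕ), l.length ≤ B → 0 < K → 0 < n →
      N = (l.map (fun e => 2 ^ e)).sum → N ≤ n → (n - N) ^ 2 ≤ K * N →
      (1 / 5 : ℝ) ^ (K ^ 2 * 2 ^ (C * B)) ≤ HadCalc.rDet n) ∧
    ∀ (B : ℕ) (l : List ℕ) (N d : ℕ), l.length ≤ B → N = (l.map (fun e => 2 ^ e)).sum → 0 < N →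
      (∀ e ∈ l, 3 * B + 13 ≤ e) → 2 ^ (3 * B + 12) ∣ d →
      Real.exp (-(3 / 4 * ((N + d : ℕ) : ℝ) * (d : ℝ) ^ 2 / (N : ℝ) ^ 2)) ≤
        HadCalc.rDet (N + d) := by
  refine ⟨fun a s u ha hH => ?_, HadCalc.bits_star, HadCalc.bits_asym⟩
  have h1 := HadLI.rDet_block s u
  have h2 := HadLI.rDet_tensor (4 * (2 ^ s + u)) a (by positivity) ha hH
  have h3 := (pow_le_pow_left₀ (Real.exp_pos _).le h1 a).trans h2
  have h4 : 4 * (2 ^ s + u) * a = 4 * a * (2 ^ s + u) := by ring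
  rw [h4] at h3
  refine le_trans (le_of_eq ?_) h3
  rw [← Real.exp_nat_mul]
  have h5 : ((2 : ℝ) ^ s) ^ 2 = (4 : ℝ) ^ s := by
    rw [← pow_mul, mul_comm, pow_mul]
    norm_num
  rw [h5]
  congr 1
  push_cast
  ring

end Pool.Agent.Results.MP_008adc_co.LongIntervals
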