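import Pool.Agent.Lib_MP_008adc_oct.OFin

/-!
# Lower bound for the normalised maximal determinant

With `maxDet n` the maximal absolute value of the determinant of an `n × n` matrix with entries
`1, -1`, `rDet n = maxDet n / n ^ (n / 2)` and the tower function `tow 0 = 1`,
`tow (j + 1) = 2 ^ tow j`, there is a constant `C` with `rDet n ≥ exp (-exp (C ^ j))` for all
`0 < n < tow j` (so `rDet n ≥ exp (-exp (C ^ (log* n)))`); in particular, for every `k` and all
large `n`, `rDet n ≥ 1 / log^[k] n`, with the `k` times iterated logarithm.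
-/

set_option autoImplicit false

namespace Pool.Agent.Results.MP_008adc_co.LowerBoundLogLog

theorem result : (∃ C : ℕ, 1 ≤ C ∧ ∀ j n : ℕ, 0 < n → n < HadCalc.tow j →
      Real.exp (-Real.exp ((C : ℝ) ^ j)) ≤ HadCalc.rDet n) ∧
    ∀ k : ℕ, ∃ n₀ : ℕ, ∀ n : ℕ, n₀ ≤ n →
      0 < Real.log^[k] n ∧ 1 / Real.log^[k] n ≤ HadCalc.rDet n :=
  ⟨HadCalc.rDet_star, HadCalc.rDet_iter⟩

end Pool.Agent.Results.MP_008adc_co.LowerBoundLogLog
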