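import Pool.Agent.Lib_MP_008adc_pp.Exact

/-!
# The maximal determinant of sign matrices whose order is a product of two close prime powers

Let `q₁ ≤ q₂` be odd prime powers and `n = q₁ q₂`. The matrix `M = Q₁ ⊗ Q₂ + 1 ⊗ J + J ⊗ 1 - 1`, where `Q₁`,
`Q₂` are the matrices of the quadratic characters of the fields with `q₁`, `q₂` elements and `J` are matrices
of ones, has the entries `1, -1`. Put `W = Q₁ ⊗ Q₂` and `B = M - W`. Multiplication by a nonsquare of the first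
field is a permutation which turns `W` into `-W` and fixes `B`; and `W B = B W = -W`. So
`det (M) ^ 2 = det (B ^ 2 - W ^ 2)`, and `B ^ 2 - W ^ 2` is a combination of `1`, `1 ⊗ J`, `J ⊗ 1`, `J ⊗ J`, that
is, a product of three matrices `1 + s (1 ⊗ J)`, `1 + u (J ⊗ 1)`, `1 + w (J ⊗ J)` up to a factor. This gives the
exact value of `|det M|`, which is at least `exp (-3 - (q₂ - q₁) ^ 2 / q₁) n ^ (n / 2)`.

The definitions `HadCalc.maxDet`, `HadCalc.rDet`, `HadCalc.HadOrder` are in `Pool.Agent.Lib_MP_008adc_co`.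
-/

set_option autoImplicit false

namespace Pool.Agent.Results.MP_008adc_co.PrimePowerProducts

/-- Let `q₁ ≤ q₂` be odd prime powers and `n = q₁ q₂`. The maximal determinant of order `n` is at least
`(n - s) ^ ((q₁ - 1) (q₂ - 1) / 2) (q₁ - 1) ^ (q₂ - 1) (q₂ - 1) ^ (q₁ - 1) (q₁ + q₂ - 1)`, where `s = 1` if
`q₁ = q₂` modulo `4` and `s = -1` otherwise; and `r (n h + k) ≥ exp (-h (3 + (q₂ - q₁) ^ 2 / q₁)) / 5 ^ k` if
`h = 1` or `h` is the order of a Hadamard matrix. -/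
theorem result (q₁ q₂ : ℕ) (h1 : IsPrimePow q₁) (h2 : IsPrimePow q₂) (o1 : Odd q₁) (o2 : Odd q₂)
    (hle : q₁ ≤ q₂) :
    ((q₁ : ℝ) * q₂ - (if q₁ % 4 = q₂ % 4 then 1 else -1)) ^ ((q₁ - 1) * (q₂ - 1) / 2) *
        ((q₁ : ℝ) - 1) ^ (q₂ - 1) * ((q₂ : ℝ) - 1) ^ (q₁ - 1) * ((q₁ : ℝ) + q₂ - 1) ≤
      HadCalc.maxDet (q₁ * q₂) ∧
    ∀ h k : ℕ, 0 < h → (h = 1 ∨ HadCalc.HadOrder h) →
      Real.exp (-(h * (3 + ((q₂ : ℝ) - q₁) ^ 2 / q₁))) * (1 / 5 : ℝ) ^ k ≤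
        HadCalc.rDet (q₁ * q₂ * h + k) := by
  refine ⟨HadPP.main_det q₁ q₂ h1 h2 o1 o2, fun h k hh hH => ?_⟩
  rcases hH with rfl | hH
  · have e1 := HadPP.main q₁ q₂ h1 h2 o1 o2 hle
    have e2 := HadPP.rDet_add (n := q₁ * q₂) (Nat.mul_pos h1.pos h2.pos) k
    rw [mul_one]
    refine le_trans ?_ e2
    rw [Nat.cast_one, one_mul]
    exact mul_le_mul_of_nonneg_right e1 (by positivity)
  · exact HadPP.main_mul h hh hH q₁ q₂ k h1 h2 o1 o2 hle

end Pool.Agent.Results.MP_008adc_co.PrimePowerProducts
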